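import Pool.Agent.H482R3.EA.Stm

set_option autoImplicit false

/-! Project EA (helper482), task GG: geometry of cosets. -/

namespace Pool.Agent.Helper750.EA

open Pool.Agent.H482R3.EA

section
variable {V Wt : Type} (c : V ⊕ Wt → V ⊕ Wt → ℕ)

lemma eq_of {p : PEA c} {a b : Σ i : LIdx c, EA (cW c) ⧸ Subgroup.zpowers (gen (cW c) i.1.2)}
    (h1 : IEA c p (Sum.inr a)) (h2 : IEA c p (Sum.inr b)) (h : a.1.1.2 = b.1.1.2) : a = b := by
  obtain ⟨i, C⟩ := a
  obtain ⟨j, D⟩ := b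
  have h3 : p.2 = i.1.1 := h1.1
  have h4 : p.2 = j.1.1 := h2.1
  have hij : i = j := Subtype.ext (Prod.ext (h3.symm.trans h4) h)
  subst hij
  have h5 : (QuotientGroup.mk p.1 : EA (cW c) ⧸ Subgroup.zpowers (gen (cW c) i.1.2)) = C := h1.2
  have h6 : (QuotientGroup.mk p.1 : EA (cW c) ⧸ Subgroup.zpowers (gen (cW c) i.1.2)) = D := h2.2
  rw [← h5, ← h6]

lemma pow_of {p q : PEA c}
    {a : Σ i : LIdx c, EA (cW c) ⧸ Subgroup.zpowers (gen (cW c) i.1.2)}
    (h1 : IEA c p (Sum.inr a)) (h2 : IEA c q (Sum.inr a)) :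
    p.2 = q.2 ∧ ∃ n : ℤ, p.1⁻¹ * q.1 = gen (cW c) a.1.1.2 ^ n := by
  obtain ⟨i, C⟩ := a
  have h3 : p.2 = i.1.1 := h1.1
  have h4 : q.2 = i.1.1 := h2.1
  have h5 : (QuotientGroup.mk p.1 : EA (cW c) ⧸ Subgroup.zpowers (gen (cW c) i.1.2)) = C := h1.2
  have h6 : (QuotientGroup.mk q.1 : EA (cW c) ⧸ Subgroup.zpowers (gen (cW c) i.1.2)) = C := h2.2
  refine ⟨h3.trans h4.symm, ?_⟩
  have h7 := QuotientGroup.eq.1 (h5.trans h6.symm)
  obtain ⟨n, hn⟩ := Subgroup.mem_zpowers_iff.1 h7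
  exact ⟨n, hn.symm⟩

end

theorem t_GG (hG : S_EXG) : S_GG := by
  intro V Wt c
  obtain ⟨-, hadd, hpow⟩ : True ∧ (∀ (w : Wt) (g g' : EA (cW c)),
      @exg V Wt c (Classical.decEq Wt) w (g * g') =
        @exg V Wt c (Classical.decEq Wt) w g + @exg V Wt c (Classical.decEq Wt) w g') ∧
      (∀ (w w' : Wt) (n : ℤ), @exg V Wt c (Classical.decEq Wt) w (gen (cW c) w' ^ n) =
        @ite ℤ (w' = w) (Classical.decEq Wt w' w) n 0) :=
    ⟨trivial, fun w => (hG V Wt (Classical.decEq Wt) c w).2.1,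
      fun w => (hG V Wt (Classical.decEq Wt) c w).2.2⟩
  have h1 : ∀ w : Wt, @exg V Wt c (Classical.decEq Wt) w 1 = 0 := by
    intro w
    have := hpow w w 0
    rw [zpow_zero] at this
    rw [this]
    split_ifs <;> rfl
  have hself : ∀ (w : Wt) (n : ℤ),
      @exg V Wt c (Classical.decEq Wt) w (gen (cW c) w ^ n) = n := by
    intro w n
    rw [hpow, if_pos rfl]
  have hne : ∀ (w w' : Wt) (n : ℤ), w' ≠ w →
      @exg V Wt c (Classical.decEq Wt) w (gen (cW c) w' ^ n) = 0 := by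
    intro w w' n h
    rw [hpow, if_neg h]
  have G1 : ∀ (l m : LnEA c) (p q : PEA c), l ≠ m → IEA c p l → IEA c q l → IEA c p m →
      IEA c q m → p = q := by
    rintro (g | a) (g' | b) p q hlm hpl hql hpm hqm
    · exfalso
      apply hlm
      have e1 : p.1 = g := hpl
      have e2 : p.1 = g' := hpm
      rw [← e1, ← e2]
    · have e1 : p.1 = g := hpl
      have e2 : q.1 = g := hql
      have e3 := (pow_of c hpm hqm).1
      exact Prod.ext (e1.trans e2.symm) e3
    · have e1 : p.1 = g' := hpm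
      have e2 : q.1 = g' := hqm
      have e3 := (pow_of c hpl hql).1
      exact Prod.ext (e1.trans e2.symm) e3
    · have hw : a.1.1.2 ≠ b.1.1.2 := by
        intro h
        exact hlm (congrArg Sum.inr (eq_of c hpl hpm h))
      obtain ⟨e3, n, hn⟩ := pow_of c hpl hql
      obtain ⟨-, n', hn'⟩ := pow_of c hpm hqm
      have e4 : n = 0 := by
        rw [← hself a.1.1.2 n, ← hn, hn']
        exact hne _ _ _ hw.symm
      rw [e4, zpow_zero, inv_mul_eq_one] at hn
      exact Prod.ext hn e3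
  refine ⟨G1, ?_⟩
  rintro (g | a) (g' | b) (g'' | d) p q r hlm hmk hkl hpl hpm hqm hqk hrk hrl
  · exfalso
    apply hlm
    have e1 : p.1 = g := hpl
    have e2 : p.1 = g' := hpm
    rw [← e1, ← e2]
  · exfalso
    apply hlm
    have e1 : p.1 = g := hpl
    have e2 : p.1 = g' := hpm
    rw [← e1, ← e2]
  · exfalso
    apply hkl
    have e1 : r.1 = g := hrl
    have e2 : r.1 = g'' := hrk
    rw [← e1, ← e2]
  · have e1 : p.1 = g := hpl
    have e2 : r.1 = g := hrl
    have e3 := (pow_of c hpm hqm).1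
    have e4 := (pow_of c hqk hrk).1
    have e5 : p = r := Prod.ext (e1.trans e2.symm) (e3.trans e4)
    subst e5
    exact G1 _ _ p q hmk hpm hqm hrk hqk
  · exfalso
    apply hmk
    have e1 : q.1 = g' := hqm
    have e2 : q.1 = g'' := hqk
    rw [← e1, ← e2]
  · have e1 : p.1 = g' := hpm
    have e2 : q.1 = g' := hqm
    have e3 := (pow_of c hrl hpl).1
    have e4 := (pow_of c hqk hrk).1
    exact Prod.ext (e1.trans e2.symm) (e3.symm.trans e4.symm)
  · have e1 : q.1 = g'' := hqk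
    have e2 : r.1 = g'' := hrk
    have e3 := (pow_of c hpm hqm).1
    have e4 := (pow_of c hrl hpl).1
    have e5 : r = q := Prod.ext (e2.trans e1.symm) (e4.trans e3)
    subst e5
    exact G1 _ _ p r hlm hpl hrl hpm hqm
  · have hab : b.1.1.2 ≠ a.1.1.2 := by
      intro h
      exact hlm (congrArg Sum.inr (eq_of c hpl hpm h.symm))
    have hbd : b.1.1.2 ≠ d.1.1.2 := by
      intro h
      exact hmk (congrArg Sum.inr (eq_of c hqm hqk h))
    obtain ⟨e3, x, hx⟩ := pow_of c hpm hqm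
    obtain ⟨-, y, hy⟩ := pow_of c hqk hrk
    obtain ⟨-, z, hz⟩ := pow_of c hrl hpl
    have hprod : gen (cW c) b.1.1.2 ^ x * gen (cW c) d.1.1.2 ^ y * gen (cW c) a.1.1.2 ^ z = 1 := by
      rw [← hx, ← hy, ← hz]
      group
    have e4 : x = 0 := by
      have := congrArg (@exg V Wt c (Classical.decEq Wt) b.1.1.2) hprod
      rw [hadd, hadd, hself, hne _ _ _ hbd.symm, hne _ _ _ hab.symm, h1] at this
      omega
    rw [e4, zpow_zero, inv_mul_eq_one] at hx
    exact Prod.ext hx e3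

end Pool.Agent.Helper750.EA
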